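import Pool.Agent.Helper97.Nag.Goals

set_option autoImplicit false

namespace Pool.Agent.Helper49.Nag.LCR

open Pool.Agent.Helper97.Nag Pool.Agent.Helper97.Tate

/-- the columns -/
noncomputable def colS (k d m : ℕ) (Om eta : ℝ) (r : ℕ) : Finset (ℤ × ℤ) :=
  ((Finset.range d).filter fun j => k * j < d).biUnion fun j =>
    (Finset.Ico ⌈Aj k d m Om eta j⌉ ⌈Aj k d m Om eta j + (kap k d m j : ℝ) / r⌉).image
      fun n => ((j : ℤ), n)

theorem mem_colS {k d m : ℕ} {Om eta : ℝ} {r : ℕ} (hk : 1 ≤ k) (q : ℤ × ℤ) :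
    q ∈ colS k d m Om eta r ↔ ∃ j : ℕ, q.1 = j ∧ k * j < d ∧ Aj k d m Om eta j ≤ q.2 ∧
        (q.2 : ℝ) < Aj k d m Om eta j + (kap k d m j : ℝ) / r := by
  unfold colS
  simp only [Finset.mem_biUnion, Finset.mem_filter, Finset.mem_range, Finset.mem_image,
    Finset.mem_Ico]
  constructor
  · rintro ⟨j, ⟨hj, hkj⟩, n, ⟨h1, h2⟩, rfl⟩
    exact ⟨j, rfl, hkj, Int.ceil_le.1 h1, Int.lt_ceil.1 h2⟩
  · rintro ⟨j, hj, hkj, h1, h2⟩
    refine ⟨j, ⟨by nlinarith, hkj⟩, q.2, ⟨Int.ceil_le.2 h1, Int.lt_ceil.2 h2⟩, ?_⟩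
    exact Prod.ext hj.symm rfl

theorem kap_eq {k r p d m j : ℕ} (hk : 1 ≤ k) (hr : 1 ≤ r) (hrp : r * p = k ^ 2) (hm : k * m < d)
    (hj : k * j < d) :
    (kap k d m j : ℝ) / r = p * ((d : ℝ) / k - ((max j m : ℕ) : ℝ)) := by
  have hk0 : (k : ℝ) ≠ 0 := by positivity
  have hr0 : (r : ℝ) ≠ 0 := by positivity
  have hle : k * max j m ≤ d := by
    rcases le_total j m with h | h
    · rw [max_eq_right h]; exact hm.le
    · rw [max_eq_left h]; exact hj.le
  unfold kap
  have h1 : (r : ℝ) * p = k ^ 2 := by exact_mod_cast hrp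
  push_cast [Nat.cast_sub hle]
  rw [div_eq_iff hr0]
  have h2 : (p : ℝ) * ((d : ℝ) / k - max (j : ℝ) m) * r = (r * p) * ((d : ℝ) / k - max (j : ℝ) m) := by
    ring
  rw [h2, h1]
  field_simp

/-- the points of a line -/
theorem line {k r p d m : ℕ} (hk : 1 ≤ k) (hr : 1 ≤ r) (hrp : r * p = k ^ 2) (hm : k * m < d)
    {rho eta : ℝ} (hrho : 0 < rho) (heta : 0 < eta) (hetap : eta < p)
    (h1 : (p - eta) * ((d : ℝ) / k - m) ≥ rho * m) (s : ℕ) (hsm : s ≤ m) (X : ℤ)
    (hZa : (s : ℝ) * (rho * (rho + (p - eta)) / (p - eta)) ≤ (d : ℝ) / k - X)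
    (hZb : (d : ℝ) / k - X ≤ rho * ((d : ℝ) / k - s) + (p - eta) * ((d : ℝ) / k - m)) :
    s ≤ ((colS k d m (1 - rho) eta r).filter fun q => q.1 - q.2 = X).card := by
  set t : ℝ := (d : ℝ) / k with ht
  set P : ℝ := (p : ℝ) - eta with hP
  have hP0 : 0 < P := sub_pos.2 hetap
  have hk0 : (0 : ℝ) < k := by positivity
  have hu0 : 0 < t - m := by
    rw [sub_pos, ht, lt_div_iff₀ hk0]
    have : ((m * k : ℕ) : ℝ) < d := by
      have h : m * k < d := by rw [mul_comm]; exact hm
      exact_mod_cast h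
    push_cast at this
    exact this
  set Z : ℝ := t - X with hZ
  have hsm' : (s : ℝ) ≤ m := by exact_mod_cast hsm
  have hs0 : (0 : ℝ) ≤ s := Nat.cast_nonneg s
  have hrP : 0 < rho + P := add_pos hrho hP0
  have hZ0 : 0 ≤ Z := le_trans (by positivity) hZa
  set a : ℝ := max 0 (t - Z / rho) with ha
  set b : ℝ := min (t - Z / (rho + P)) (t - (Z - P * (t - m)) / rho) with hb
  have hab : a ≤ b - s := by
    rw [le_sub_iff_add_le]
    apply le_min
    · rw [← le_sub_iff_add_le]
      apply max_le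
      · have : Z / (rho + P) ≤ t - s := by
          rw [div_le_iff₀ hrP]
          nlinarith
        linarith
      · have h4 : Z / (rho + P) + s ≤ Z / rho := by
          have h5 : (s : ℝ) * (rho * (rho + P)) ≤ Z * P := by
            have := mul_le_mul_of_nonneg_right hZa hP0.le
            have h6 : (s : ℝ) * (rho * (rho + P) / P) * P = s * (rho * (rho + P)) := by
              field_simp
            linarith
          have h7 : Z / rho - Z / (rho + P) = Z * P / (rho * (rho + P)) := by
            field_simp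
            ring
          have h8 : (s : ℝ) ≤ Z * P / (rho * (rho + P)) := by
            rw [le_div_iff₀ (by positivity)]
            exact h5
          linarith
        linarith
    · rw [← le_sub_iff_add_le]
      apply max_le
      · have : (Z - P * (t - m)) / rho ≤ t - s := by
          rw [div_le_iff₀ hrho]
          nlinarith
        linarith
      · have h9 : (Z - P * (t - m)) / rho + s ≤ Z / rho := by
          have h10 : (s : ℝ) ≤ P * (t - m) / rho := by
            rw [le_div_iff₀ hrho]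
            nlinarith
          rw [sub_div]
          linarith
        linarith
  have hinj : Function.Injective fun j : ℤ => ((j, j - X) : ℤ × ℤ) := by
    intro j j' h
    exact congrArg Prod.fst h
  have hsub : (Finset.Ico ⌈a⌉ ⌈b⌉).image (fun j : ℤ => ((j, j - X) : ℤ × ℤ)) ⊆
      (colS k d m (1 - rho) eta r).filter fun q => q.1 - q.2 = X := by
    intro q hq
    rw [Finset.mem_image] at hq
    obtain ⟨j, hj, rfl⟩ := hq
    rw [Finset.mem_Ico] at hj
    have hja : a ≤ j := Int.ceil_le.1 hj.1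
    have hjb : (j : ℝ) < b := Int.lt_ceil.1 hj.2
    have hj0 : (0 : ℝ) ≤ j := le_trans (le_max_left _ _) hja
    have hj1 : t - Z / rho ≤ j := le_trans (le_max_right _ _) hja
    have hj2 : (j : ℝ) < t - Z / (rho + P) := lt_of_lt_of_le hjb (min_le_left _ _)
    have hj3 : (j : ℝ) < t - (Z - P * (t - m)) / rho := lt_of_lt_of_le hjb (min_le_right _ _)
    have e1 : rho * (t - j) ≤ Z := by
      have : t - j ≤ Z / rho := by linarith
      rw [le_div_iff₀ hrho] at this
      linarith
    have e2 : Z < (rho + P) * (t - j) := by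
      have : Z / (rho + P) < t - j := by linarith
      rw [div_lt_iff₀ hrP] at this
      linarith
    have e3 : Z < rho * (t - j) + P * (t - m) := by
      have : (Z - P * (t - m)) / rho < t - j := by linarith
      rw [div_lt_iff₀ hrho] at this
      linarith
    have hj0' : 0 ≤ j := by exact_mod_cast hj0
    obtain ⟨i, rfl⟩ := Int.eq_ofNat_of_zero_le hj0'
    have htj : (0 : ℝ) < t - ((i : ℕ) : ℤ) := by
      by_contra h
      push Not at h
      nlinarith
    have hki : k * i < d := by
      have h11 : ((i : ℕ) : ℝ) < t := by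
        have := htj
        push_cast at this
        linarith
      rw [ht, lt_div_iff₀ hk0] at h11
      have h12 : ((i * k : ℕ) : ℝ) < (d : ℝ) := by push_cast; exact h11
      have h13 : i * k < d := by exact_mod_cast h12
      rw [mul_comm]; exact h13
    rw [Finset.mem_filter]
    refine ⟨(mem_colS hk _).2 ⟨i, rfl, hki, ?_, ?_⟩, by ring⟩
    · simp only
      unfold Aj
      rw [← ht]
      have hmx : (0 : ℝ) ≤ t - ((max i m : ℕ) : ℝ) := by
        push_cast
        push_cast at htj
        rcases le_total (i : ℝ) m with h | h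
        · rw [max_eq_right h]; exact hu0.le
        · rw [max_eq_left h]; exact htj.le
      push_cast at e1 hmx ⊢
      have h14 : (X : ℝ) = t - Z := by rw [hZ]; ring
      rw [h14]
      nlinarith
    · simp only
      rw [kap_eq hk hr hrp hm hki]
      unfold Aj
      rw [← ht]
      push_cast at e1 e2 e3 ⊢
      have h14 : (X : ℝ) = t - Z := by rw [hZ]; ring
      have h15 : (p : ℝ) = P + eta := by rw [hP]; ring
      rw [h14, h15]
      rcases le_total (i : ℝ) m with h | h
      · rw [max_eq_right h]; linarith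
      · rw [max_eq_left h]; linarith
  refine le_trans ?_ (Finset.card_le_card hsub)
  rw [Finset.card_image_of_injective _ hinj, Int.card_Ico]
  have h16 : (s : ℤ) ≤ ⌈b⌉ - ⌈a⌉ := by
    have h17 : (b : ℝ) ≤ ⌈b⌉ := Int.le_ceil b
    have h18 : (⌈a⌉ : ℝ) < a + 1 := Int.ceil_lt_add_one a
    have h19 : ((s : ℤ) : ℝ) < ((⌈b⌉ - ⌈a⌉ + 1 : ℤ) : ℝ) := by
      push_cast
      linarith
    have h20 : (s : ℤ) < ⌈b⌉ - ⌈a⌉ + 1 := by exact_mod_cast h19
    omega
  omega

theorem t (h : S_COLS) : S_LCR := by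
  intro k r p d m hk hr hrp hm1 hm rho eta hrho heta hetap h1 h2 h3
  have hk1 : 1 ≤ k := by omega
  obtain ⟨S', hS', hcard, hind⟩ := h m (colS k d m (1 - rho) eta r) (by
    intro s hs1 hsm
    set t : ℝ := (d : ℝ) / k with ht
    set P : ℝ := (p : ℝ) - eta with hP
    have hP0 : 0 < P := sub_pos.2 hetap
    set c : ℝ := rho * (rho + P) / P with hc
    have hcP : c * P = rho * (rho + P) := by
      rw [hc]; field_simp
    have hm0 : (0 : ℝ) < m := by exact_mod_cast hm1
    have hsm' : (s : ℝ) ≤ m := by exact_mod_cast hsm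
    have hs0 : (0 : ℝ) ≤ s := Nat.cast_nonneg s
    have hgm : 1 ≤ rho * (t - m) + P * (t - m) - m * c := by
      have h4 : P * 1 ≤ P * (rho * (t - m) + P * (t - m) - m * c) := by
        have h5 : P * (rho * (t - m) + P * (t - m) - m * c) =
            (rho + P) * (P * (t - m)) - m * (c * P) := by ring
        rw [h5, hcP]
        have h6 : (rho + P) * (P * (t - m)) - m * (rho * (rho + P)) =
          (rho + P) * (P * (t - m) - rho * m) := by ring
        rw [h6]
        linarith
      exact le_of_mul_le_mul_left h4 hP0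
    have hg : (m : ℝ) + 1 - s ≤ rho * (t - s) + P * (t - m) - s * c := by
      have h7 : 0 ≤ m * (rho * (t - s) + P * (t - m) - s * c - (m + 1 - s)) := by
        have h8 : m * (rho * (t - s) + P * (t - m) - s * c - (m + 1 - s)) =
            (m - s) * (rho * t + P * (t - m) - (m + 1)) +
              s * (rho * (t - m) + P * (t - m) - m * c - 1) := by ring
        rw [h8]
        have h9 : 0 ≤ (m - s) * (rho * t + P * (t - m) - (m + 1)) :=
          mul_nonneg (by linarith) (by linarith)
        have h10 : 0 ≤ s * (rho * (t - m) + P * (t - m) - m * c - 1) :=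
          mul_nonneg hs0 (by linarith)
        linarith
      have h11 := nonneg_of_mul_nonneg_right h7 hm0
      linarith
    set lo : ℝ := t - (rho * (t - s) + P * (t - m)) with hlo
    set hi : ℝ := t - s * c with hhi
    have hsub : Finset.Icc ⌈lo⌉ ⌊hi⌋ ⊆ lns (colS k d m (1 - rho) eta r) s := by
      intro X hX
      rw [Finset.mem_Icc] at hX
      have hX1 : lo ≤ X := Int.ceil_le.1 hX.1
      have hX2 : (X : ℝ) ≤ hi := Int.le_floor.1 hX.2
      have hcnt := line hk1 hr hrp hm hrho heta hetap h1 s hsm X (by linarith) (by linarith)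
      unfold lns
      rw [Finset.mem_filter]
      refine ⟨?_, hcnt⟩
      have hne : ((colS k d m (1 - rho) eta r).filter fun q => q.1 - q.2 = X).Nonempty := by
        rw [← Finset.card_pos]
        omega
      obtain ⟨q, hq⟩ := hne
      rw [Finset.mem_filter] at hq
      rw [Finset.mem_image]
      exact ⟨q, hq.1, hq.2⟩
    have hcd := Finset.card_le_card hsub
    rw [Int.card_Icc] at hcd
    have h16 : (m : ℤ) + 1 - s ≤ ⌊hi⌋ + 1 - ⌈lo⌉ := by
      have h17 : hi < ⌊hi⌋ + 1 := Int.lt_floor_add_one hi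
      have h18 : (⌈lo⌉ : ℝ) < lo + 1 := Int.ceil_lt_add_one lo
      have h19 : (((m : ℤ) + 1 - s : ℤ) : ℝ) < ((⌊hi⌋ + 1 - ⌈lo⌉ + 1 : ℤ) : ℝ) := by
        push_cast
        linarith
      have h20 : (m : ℤ) + 1 - s < ⌊hi⌋ + 1 - ⌈lo⌉ + 1 := by exact_mod_cast h19
      omega
    omega)
  exact ⟨S', fun q hq => (mem_colS hk1 q).1 (hS' hq), hcard, hind⟩

end Pool.Agent.Helper49.Nag.LCR
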